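import Pool.Agent.Helper75.PD.LocA

/-! Local counting at intermediate depths: the lower bound. -/

namespace Pool.Agent.Helper75.PD

open Pool.Agent.Helper3.ND Pool.Agent.Helper3.TD Pool.Agent.Helper1.PD

/-- the ratio is in the interval -/
def Ln (ρ : ℝ) (n k : ℕ) : Prop := ρ < (2 : ℝ) ^ n / 3 ^ k ∧ (2 : ℝ) ^ n / 3 ^ k ≤ 2 * ρ

/-- averaging a function of the first `i` steps -/
theorem avg_first {i L : ℕ} (h : i ≤ L) (g : ℕ → ℝ) :
    (∑ r ∈ Finset.range (2 ^ L), g (od i (r : ℤ))) / 2 ^ L = (∑ r ∈ Finset.range (2 ^ i), g (od i (r : ℤ))) / 2 ^ i := by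
  obtain ⟨j, rfl⟩ := Nat.exists_eq_add_of_le h
  have h1 := sum_split i j (fun r1 _ => g (od i (r1 : ℤ)))
  have h2 : ∑ r ∈ Finset.range (2 ^ (i + j)), g (od i (r : ℤ)) = ∑ r ∈ Finset.range (2 ^ (i + j)), (fun r1 _ : ℕ => g (od i (r1 : ℤ))) (r % 2 ^ i) (yy i j r) := by
    apply Finset.sum_congr rfl
    intro r _
    rw [od_mod i r]
  rw [h2, h1]
  simp only [Finset.sum_const, Finset.card_range, nsmul_eq_mul]
  rw [← Finset.mul_sum, pow_add]
  push_cast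
  field_simp

/-- the increment of the number of odd steps -/
theorem od_step (i : ℕ) (n : ℤ) : od i n ≤ od (i + 1) n := by
  rw [od_add]; omega

/-- a path that ends above `b` hits the interval -/
theorem hit {b : ℝ} (hb : 1 ≤ b) (L : ℕ) (n : ℤ) (hL : b < (2 : ℝ) ^ L / 3 ^ od L n) :
    ∃ i, i ≤ L ∧ b < (2 : ℝ) ^ i / 3 ^ od i n ∧ (2 : ℝ) ^ i / 3 ^ od i n ≤ 2 * b := by
  classical
  have hex : ∃ i, b < (2 : ℝ) ^ i / 3 ^ od i n := ⟨L, hL⟩
  obtain ⟨i, hi, hmin⟩ : ∃ i, b < (2 : ℝ) ^ i / 3 ^ od i n ∧ ∀ j < i, ¬ b < (2 : ℝ) ^ j / 3 ^ od j n :=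
    ⟨Nat.find hex, Nat.find_spec hex, fun j hj => Nat.find_min hex hj⟩
  refine ⟨i, ?_, hi, ?_⟩
  · by_contra hc
    exact hmin L (by omega) hL
  · rcases i with _ | i
    · simp only [od, pow_zero, div_one] at hi ⊢
      linarith
    · have h1 := not_lt.mp (hmin i (by omega))
      have h2 : (2 : ℝ) ^ (i + 1) / 3 ^ od (i + 1) n ≤ 2 * ((2 : ℝ) ^ i / 3 ^ od i n) := by
        have h3 : (3 : ℝ) ^ od i n ≤ 3 ^ od (i + 1) n := pow_le_pow_right₀ (by norm_num) (od_step i n)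
        calc (2 : ℝ) ^ (i + 1) / 3 ^ od (i + 1) n ≤ (2 : ℝ) ^ (i + 1) / 3 ^ od i n := by gcongr
          _ = _ := by rw [pow_succ]; ring
      linarith

open Classical in
/-- the expected number of hits -/
theorem hits {b : ℝ} (hb : 1 ≤ b) (L : ℕ)
    (hL : (((Finset.range (2 ^ L)).filter (fun r : ℕ => (2 : ℝ) ^ L / 3 ^ od L (r : ℤ) ≤ b)).card : ℝ) ≤ 2 ^ L / 2) :
    1 / 2 ≤ ∑ i ∈ Finset.range (L + 1),
      (∑ r ∈ Finset.range (2 ^ i), if b < (2 : ℝ) ^ i / 3 ^ od i (r : ℤ) ∧ (2 : ℝ) ^ i / 3 ^ od i (r : ℤ) ≤ 2 * b then (1 : ℝ) else 0) / 2 ^ i := by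
  have h1 : ∀ i ∈ Finset.range (L + 1),
      (∑ r ∈ Finset.range (2 ^ i), if b < (2 : ℝ) ^ i / 3 ^ od i (r : ℤ) ∧ (2 : ℝ) ^ i / 3 ^ od i (r : ℤ) ≤ 2 * b then (1 : ℝ) else 0) / 2 ^ i =
      (∑ r ∈ Finset.range (2 ^ L), if b < (2 : ℝ) ^ i / 3 ^ od i (r : ℤ) ∧ (2 : ℝ) ^ i / 3 ^ od i (r : ℤ) ≤ 2 * b then (1 : ℝ) else 0) / 2 ^ L := by
    intro i hi
    rw [Finset.mem_range] at hi
    exact (avg_first (show i ≤ L by omega) (fun k => if b < (2 : ℝ) ^ i / 3 ^ k ∧ (2 : ℝ) ^ i / 3 ^ k ≤ 2 * b then (1 : ℝ) else 0)).symm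
  rw [Finset.sum_congr rfl h1, ← Finset.sum_div, Finset.sum_comm, le_div_iff₀ (by positivity)]
  have h2 : ∀ r ∈ Finset.range (2 ^ L), (if ¬ (2 : ℝ) ^ L / 3 ^ od L (r : ℤ) ≤ b then (1 : ℝ) else 0) ≤
      ∑ i ∈ Finset.range (L + 1), if b < (2 : ℝ) ^ i / 3 ^ od i (r : ℤ) ∧ (2 : ℝ) ^ i / 3 ^ od i (r : ℤ) ≤ 2 * b then (1 : ℝ) else 0 := by
    intro r _
    split_ifs with h3
    · exact Finset.sum_nonneg (fun i _ => by split_ifs <;> norm_num)
    · obtain ⟨i, hi, h4⟩ := hit hb L (r : ℤ) (not_le.mp h3)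
      have h5 := Finset.single_le_sum (f := fun i => if b < (2 : ℝ) ^ i / 3 ^ od i (r : ℤ) ∧ (2 : ℝ) ^ i / 3 ^ od i (r : ℤ) ≤ 2 * b then (1 : ℝ) else 0)
        (s := Finset.range (L + 1)) (fun i _ => by split_ifs <;> norm_num) (Finset.mem_range.mpr (show i < L + 1 by omega))
      rw [if_pos h4] at h5
      exact h5
  refine le_trans ?_ (Finset.sum_le_sum h2)
  rw [← Finset.sum_filter, Finset.sum_const, nsmul_eq_mul, mul_one]
  have h3 := Finset.card_filter_add_card_filter_not (s := Finset.range (2 ^ L)) (fun r : ℕ => (2 : ℝ) ^ L / 3 ^ od L (r : ℤ) ≤ b)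
  rw [Finset.card_range] at h3
  have h4 : (((Finset.range (2 ^ L)).filter (fun r : ℕ => (2 : ℝ) ^ L / 3 ^ od L (r : ℤ) ≤ b)).card : ℝ) +
    (((Finset.range (2 ^ L)).filter (fun r : ℕ => ¬ (2 : ℝ) ^ L / 3 ^ od L (r : ℤ) ≤ b)).card : ℝ) = 2 ^ L := by exact_mod_cast h3
  linarith

open Classical in
/-- sums of densities over a set of numbers of odd steps -/
theorem D_sum_set (m s1 s : ℕ) (M : ℤ) (Q : ℕ → Prop) :
    ∑ k ∈ (Finset.range (s1 + s + 1)).filter Q, D m (s1 + s) k (fun r => m ≤ od s (yy s1 s r : ℤ)) M =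
      ∑ y ∈ Finset.range (2 ^ s), if m ≤ od s (y : ℤ) ∧ (3 : ℤ) ^ m ∣ 2 ^ s * M - cc s (y : ℤ) then
        (3 : ℝ) ^ m / 2 ^ s * ((∑ r ∈ Finset.range (2 ^ s1), if Q (od s1 (r : ℤ) + od s (y : ℤ)) then (1 : ℝ) else 0) / 2 ^ s1) else 0 := by
  obtain ⟨f, hf⟩ : ∃ f : ℕ → ℕ → ℝ, f = fun r1 y : ℕ => if (m ≤ od s (y : ℤ) ∧ (3 : ℤ) ^ m ∣ 2 ^ s * M - cc s (y : ℤ)) ∧
    Q (od s1 (r1 : ℤ) + od s (y : ℤ)) then (3 : ℝ) ^ m / 2 ^ (s1 + s) else 0 := ⟨_, rfl⟩
  unfold D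
  rw [Finset.sum_comm]
  have hstep : ∀ r ∈ Finset.range (2 ^ (s1 + s)), (∑ k ∈ (Finset.range (s1 + s + 1)).filter Q,
      (if od (s1 + s) (r : ℤ) = k ∧ (fun r : ℕ => m ≤ od s (yy s1 s r : ℤ)) r ∧ (3 : ℤ) ^ m ∣ M - T^[s1 + s] (r : ℤ) then (3 : ℝ) ^ m / 2 ^ (s1 + s) else 0)) =
      f (r % 2 ^ s1) (yy s1 s r) := by
    intro r _
    have hsp : od (s1 + s) (r : ℤ) = od s1 ((r % 2 ^ s1 : ℕ) : ℤ) + od s (yy s1 s r : ℤ) := by
      rw [od_split, od_mod]
    by_cases hQ : Q (od (s1 + s) (r : ℤ))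
    · have hmem : od (s1 + s) (r : ℤ) ∈ (Finset.range (s1 + s + 1)).filter Q := by
        rw [Finset.mem_filter, Finset.mem_range]; have := od_le (s1 + s) (r : ℤ)
        exact ⟨by omega, hQ⟩
      rw [Finset.sum_eq_single_of_mem _ hmem]
      · rw [hf]
        simp only
        rw [← hsp]
        by_cases h2 : m ≤ od s (yy s1 s r : ℤ)
        · have h3 := dvd_iff_last m s1 s r M h2
          by_cases h4 : (3 : ℤ) ^ m ∣ M - T^[s1 + s] (r : ℤ)
          · rw [if_pos ⟨trivial, h2, h4⟩, if_pos ⟨⟨h2, h3.mp h4⟩, hQ⟩]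
          · rw [if_neg (fun h => h4 h.2.2), if_neg (fun h => h4 (h3.mpr h.1.2))]
        · rw [if_neg (fun h => h2 h.2.1), if_neg (fun h => h2 h.1.1)]
      · intro k _ hne
        rw [if_neg (fun h => hne h.1.symm)]
    · rw [Finset.sum_eq_zero]
      · rw [hf]
        simp only
        rw [← hsp, if_neg (fun h => hQ h.2)]
      · intro k hk
        rw [Finset.mem_filter] at hk
        apply if_neg
        rintro ⟨h, _⟩
        rw [h] at hQ
        exact hQ hk.2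
  refine Eq.trans (Finset.sum_congr rfl (fun r hr => Eq.trans ?_ (hstep r hr))) ?_
  · apply Finset.sum_congr rfl
    intro k _
    congr
  rw [sum_split s1 s f, Finset.sum_comm]
  apply Finset.sum_congr rfl
  intro y _
  rw [hf]
  simp only
  by_cases h2 : m ≤ od s (y : ℤ) ∧ (3 : ℤ) ^ m ∣ 2 ^ s * M - cc s (y : ℤ)
  · rw [if_pos h2, Finset.sum_div, Finset.mul_sum]
    apply Finset.sum_congr rfl
    intro r _
    by_cases h3 : Q (od s1 (r : ℤ) + od s (y : ℤ))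
    · rw [if_pos ⟨h2, h3⟩, if_pos h3, pow_add]
      field_simp
    · rw [if_neg (fun h => h3 h.2), if_neg h3]
      simp
  · rw [if_neg h2]
    apply Finset.sum_eq_zero
    intro r _
    rw [if_neg (fun h => h2 h.1)]

open Classical in
/-- typical paths end above -/
theorem tail {t : ℕ} (ht : 200000 ≤ t) {ρ : ℝ} (hρ : ρ ≤ (2 : ℝ) ^ ((t : ℝ) / 30)) {o L : ℕ} (ho : o ≤ 3 * mm t)
    (hL : L + 3 * mm t = t / 5) :
    (((Finset.range (2 ^ L)).filter (fun r : ℕ => (2 : ℝ) ^ L / 3 ^ od L (r : ℤ) ≤ ρ * 3 ^ o / 2 ^ (3 * mm t))).card : ℝ) ≤ 2 ^ L / 2 := by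
  have htr : (200000 : ℝ) ≤ t := by exact_mod_cast ht
  have hs : (3 * mm t : ℕ) ≤ 3 * (t / 2000) := by unfold mm; omega
  have hL1 : 1 ≤ L := by unfold mm at hL; omega
  have hLr : (L : ℝ) ≤ t / 5 := by
    have : 5 * L ≤ t := by omega
    have : (5 : ℝ) * L ≤ t := by exact_mod_cast this
    linarith
  have hL0 : (0 : ℝ) < L := by exact_mod_cast hL1
  have hsr : ((3 * mm t : ℕ) : ℝ) ≤ 3 * t / 2000 := by
    have : 2000 * (3 * mm t) ≤ 3 * t := by unfold mm; omega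
    have : (2000 : ℝ) * ((3 * mm t : ℕ) : ℝ) ≤ 3 * t := by exact_mod_cast this
    linarith
  have hLs : (t : ℝ) / 5 - 1 ≤ ((L + 3 * mm t : ℕ) : ℝ) := by
    have : t ≤ 5 * (L + 3 * mm t) + 5 := by omega
    have : (t : ℝ) ≤ 5 * ((L + 3 * mm t : ℕ) : ℝ) + 5 := by exact_mod_cast this
    linarith
  have h1 := card_od L hL1 (3 * t / 1000) (by positivity)
  have hlog : 63 * Real.log 3 ≤ 100 * Real.log 2 := by
    have e : Real.log ((3 : ℝ) ^ 63) ≤ Real.log ((2 : ℝ) ^ 100) := Real.log_le_log (by positivity) (by norm_num)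
    rw [Real.log_pow, Real.log_pow] at e
    exact_mod_cast e
  have hl2 : 0 < Real.log 2 := Real.log_pos (by norm_num)
  have hl3 : 0 < Real.log 3 := Real.log_pos (by norm_num)
  have hsub : ((Finset.range (2 ^ L)).filter (fun r : ℕ => (2 : ℝ) ^ L / 3 ^ od L (r : ℤ) ≤ ρ * 3 ^ o / 2 ^ (3 * mm t))) ⊆
      ((Finset.range (2 ^ L)).filter (fun y : ℕ => 3 * (t : ℝ) / 1000 ≤ |(od L (y : ℤ) : ℝ) - L / 2|)) := by
    intro r hr
    rw [Finset.mem_filter] at hr ⊢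
    refine ⟨hr.1, ?_⟩
    have h2 := hr.2
    rw [div_le_div_iff₀ (by positivity) (by positivity), ← pow_add, mul_assoc, ← pow_add] at h2
    have h3 : (2 : ℝ) ^ (L + 3 * mm t) ≤ (2 : ℝ) ^ ((t : ℝ) / 30) * 3 ^ (o + od L (r : ℤ)) :=
      le_trans h2 (mul_le_mul_of_nonneg_right hρ (by positivity))
    have h4 := Real.log_le_log (by positivity) h3
    rw [Real.log_pow, Real.log_mul (by positivity) (by positivity), Real.log_pow, Real.log_rpow (by norm_num)] at h4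
    have h5 : ((o + od L (r : ℤ) : ℕ) : ℝ) ≤ 3 * t / 2000 + od L (r : ℤ) := by
      push_cast
      have : (o : ℝ) ≤ ((3 * mm t : ℕ) : ℝ) := by exact_mod_cast ho
      linarith
    have h6 : ((t : ℝ) / 5 - 1) * Real.log 2 ≤ (t : ℝ) / 30 * Real.log 2 + (3 * t / 2000 + od L (r : ℤ)) * Real.log 3 :=
      le_trans (mul_le_mul_of_nonneg_right hLs hl2.le) (le_trans h4 (add_le_add le_rfl (mul_le_mul_of_nonneg_right h5 hl3.le)))
    have h7 : ((t : ℝ) / 6 - 1) * Real.log 2 ≤ (3 * t / 2000 + od L (r : ℤ)) * Real.log 3 := by linarith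
    have h8 : ((t : ℝ) / 6 - 1) * (63 * Real.log 3) ≤ (3 * t / 2000 + od L (r : ℤ)) * Real.log 3 * 100 := by
      calc ((t : ℝ) / 6 - 1) * (63 * Real.log 3) ≤ ((t : ℝ) / 6 - 1) * (100 * Real.log 2) := by
            apply mul_le_mul_of_nonneg_left hlog; linarith
        _ ≤ _ := by linarith
    have h9 : ((t : ℝ) / 6 - 1) * 63 ≤ (3 * t / 2000 + od L (r : ℤ)) * 100 := by
      apply le_of_mul_le_mul_right _ hl3
      linarith
    apply le_trans _ (le_abs_self _)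
    linarith
  have h2 : Real.exp (-(2 * (3 * (t : ℝ) / 1000) ^ 2 / L)) ≤ 1 / 4 := by
    have e1 : 2 ≤ 2 * (3 * (t : ℝ) / 1000) ^ 2 / L := by
      rw [le_div_iff₀ hL0]
      nlinarith
    have e2 : Real.exp (-(2 * (3 * (t : ℝ) / 1000) ^ 2 / L)) ≤ Real.exp (-2) := Real.exp_le_exp.mpr (by linarith)
    refine le_trans e2 ?_
    have e3 : (2 : ℝ) ≤ Real.exp 1 := by linarith [Real.add_one_le_exp (1 : ℝ)]
    rw [Real.exp_neg, show (2 : ℝ) = 1 + 1 by norm_num, Real.exp_add, inv_eq_one_div]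
    apply one_div_le_one_div_of_le (by norm_num)
    nlinarith
  have h3 : (((Finset.range (2 ^ L)).filter (fun r : ℕ => (2 : ℝ) ^ L / 3 ^ od L (r : ℤ) ≤ ρ * 3 ^ o / 2 ^ (3 * mm t))).card : ℝ) ≤
      (((Finset.range (2 ^ L)).filter (fun y : ℕ => 3 * (t : ℝ) / 1000 ≤ |(od L (y : ℤ) : ℝ) - L / 2|)).card : ℝ) := by
    exact_mod_cast Finset.card_le_card hsub
  calc _ ≤ _ := h3
    _ ≤ 2 ^ L * (2 * Real.exp (-(2 * (3 * (t : ℝ) / 1000) ^ 2 / L))) := h1
    _ ≤ 2 ^ L * (2 * (1 / 4)) := by gcongr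
    _ = _ := by ring

open Classical in
/-- the densities at the level `m` along the line -/
theorem line_lower {t : ℕ} (ht : 200000 ≤ t) {ρ : ℝ} (hρ1 : (2 : ℝ) ^ ((t : ℝ) / 150) ≤ ρ) (hρ : ρ ≤ (2 : ℝ) ^ ((t : ℝ) / 30)) (N : ℤ) :
    (1 / 2) * dl (mm t) (3 * mm t) N ≤ ∑ n ∈ Finset.Icc (t / 200) (t / 5),
      ∑ k ∈ (Finset.range (n + 1)).filter (Ln ρ n), D (mm t) n k (fun _ => True) N := by
  obtain ⟨s, hs⟩ : ∃ s, s = 3 * mm t := ⟨_, rfl⟩
  have hs1 : s ≤ t / 200 := by rw [hs]; unfold mm; omega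
  obtain ⟨L, hL⟩ : ∃ L, L + s = t / 5 := ⟨t / 5 - s, by omega⟩
  have htr : (200000 : ℝ) ≤ t := by exact_mod_cast ht
  have hρ0 : 0 < ρ := lt_of_lt_of_le (by positivity) hρ1
  have hρs : (2 : ℝ) ^ s ≤ ρ := by
    refine le_trans ?_ hρ1
    rw [← Real.rpow_natCast]
    apply Real.rpow_le_rpow_of_exponent_le (by norm_num)
    have : 200 * s ≤ t := by omega
    have : (200 : ℝ) * s ≤ t := by exact_mod_cast this
    linarith
  have hρn : ∀ n, n ≤ t / 200 → (2 : ℝ) ^ n ≤ ρ := by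
    intro n hn
    refine le_trans ?_ hρ1
    rw [← Real.rpow_natCast]
    apply Real.rpow_le_rpow_of_exponent_le (by norm_num)
    have : 200 * n ≤ t := by omega
    have : (200 : ℝ) * n ≤ t := by exact_mod_cast this
    linarith
  -- reduction to a sum over `i`
  have h1 : ∑ n ∈ Finset.Icc (t / 200) (t / 5), ∑ k ∈ (Finset.range (n + 1)).filter (Ln ρ n), D (mm t) n k (fun _ => True) N =
      ∑ n ∈ Finset.Icc s (t / 5), ∑ k ∈ (Finset.range (n + 1)).filter (Ln ρ n), D (mm t) n k (fun _ => True) N := by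
    apply Finset.sum_subset (Finset.Icc_subset_Icc hs1 le_rfl)
    intro n hn hn2
    rw [Finset.mem_Icc] at hn hn2
    rw [Finset.filter_false_of_mem, Finset.sum_empty]
    rintro k _ ⟨h2, _⟩
    have h3 := hρn n (by omega)
    have h4 : (2 : ℝ) ^ n / 3 ^ k ≤ 2 ^ n := div_le_self (by positivity) (one_le_pow₀ (by norm_num))
    linarith
  have h2 : ∑ n ∈ Finset.Icc s (t / 5), ∑ k ∈ (Finset.range (n + 1)).filter (Ln ρ n), D (mm t) n k (fun _ => True) N =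
      ∑ i ∈ Finset.range (L + 1), ∑ k ∈ (Finset.range (i + s + 1)).filter (Ln ρ (i + s)), D (mm t) (i + s) k (fun _ => True) N := by
    have e : Finset.Icc s (t / 5) = Finset.Ico s (s + (L + 1)) := by
      ext n
      rw [Finset.mem_Icc, Finset.mem_Ico]
      omega
    rw [e, Finset.sum_Ico_eq_sum_range, show s + (L + 1) - s = L + 1 by omega]
    apply Finset.sum_congr rfl
    intro i _
    rw [add_comm s i]
  rw [h1, h2]
  have h3 : ∀ i ∈ Finset.range (L + 1), ∑ k ∈ (Finset.range (i + s + 1)).filter (Ln ρ (i + s)), D (mm t) (i + s) k (fun r => mm t ≤ od s (yy i s r : ℤ)) N ≤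
      ∑ k ∈ (Finset.range (i + s + 1)).filter (Ln ρ (i + s)), D (mm t) (i + s) k (fun _ => True) N := by
    intro i _
    apply Finset.sum_le_sum
    intro k _
    rw [D_split (mm t) (i + s) k (fun r => mm t ≤ od s (yy i s r : ℤ)) N]
    linarith [D_nonneg (mm t) (i + s) k (fun r => ¬ mm t ≤ od s (yy i s r : ℤ)) N]
  refine le_trans ?_ (Finset.sum_le_sum h3)
  rw [Finset.sum_congr rfl (fun i _ => D_sum_set (mm t) i s N (Ln ρ (i + s))), Finset.sum_comm]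
  rw [← hs]
  unfold dl
  rw [Finset.mul_sum]
  apply Finset.sum_le_sum
  intro y _
  by_cases h4 : mm t ≤ od s (y : ℤ) ∧ (3 : ℤ) ^ mm t ∣ 2 ^ s * N - cc s (y : ℤ)
  · simp only [if_pos h4]
    rw [← Finset.mul_sum, mul_comm (1 / 2 : ℝ)]
    apply mul_le_mul_of_nonneg_left _ (by positivity)
    have hb : 1 ≤ ρ * 3 ^ od s (y : ℤ) / 2 ^ s := by
      rw [le_div_iff₀ (by positivity), one_mul]
      have : (1 : ℝ) ≤ 3 ^ od s (y : ℤ) := one_le_pow₀ (by norm_num)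
      nlinarith
    have h5 := hits hb L (by
      have := tail ht hρ (o := od s (y : ℤ)) (L := L) (by rw [← hs]; exact od_le s _) (by rw [← hs]; exact hL)
      rw [← hs] at this
      exact this)
    refine le_trans h5 (le_of_eq ?_)
    apply Finset.sum_congr rfl
    intro i _
    congr 1
    apply Finset.sum_congr rfl
    intro r _
    apply if_congr _ rfl rfl
    unfold Ln
    have hp1 : (0 : ℝ) < 3 ^ od i (r : ℤ) := by positivity
    have hp2 : (0 : ℝ) < 3 ^ od s (y : ℤ) := by positivity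
    have hp3 : (0 : ℝ) < 2 ^ s := by positivity
    have e1 : (2 : ℝ) ^ (i + s) / 3 ^ (od i (r : ℤ) + od s (y : ℤ)) = (2 : ℝ) ^ i / 3 ^ od i (r : ℤ) * (2 ^ s / 3 ^ od s (y : ℤ)) := by
      rw [pow_add, pow_add]; field_simp
    rw [e1]
    constructor
    · rintro ⟨a1, a2⟩
      rw [div_lt_iff₀ hp3] at a1
      constructor
      · rw [mul_div_assoc', lt_div_iff₀ hp2]; exact a1
      · rw [mul_div_assoc', div_le_iff₀ hp2]
        rw [mul_div_assoc', le_div_iff₀ hp3] at a2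
        linarith
    · rintro ⟨a1, a2⟩
      rw [mul_div_assoc', lt_div_iff₀ hp2] at a1
      rw [mul_div_assoc', div_le_iff₀ hp2] at a2
      constructor
      · rw [div_lt_iff₀ hp3]; exact a1
      · rw [mul_div_assoc', le_div_iff₀ hp3]; linarith
  · simp only [if_neg h4]
    rw [Finset.sum_const_zero, mul_zero]

/-- **Local counting**: lower bound for the number of preimages at a given ratio -/
theorem loc_lower : ∀ t : ℕ, 200000 ≤ t → ∀ ρ : ℝ, (2 : ℝ) ^ ((t : ℝ) / 150) ≤ ρ → ρ ≤ (2 : ℝ) ^ ((t : ℝ) / 30) → ∀ N : ℤ,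
    (1 / 2) * dl (mm t) (3 * mm t) N - EE t N ≤ ∑ n ∈ Finset.Icc (t / 200) (t / 5),
      ∑ k ∈ (KS n 0).filter (fun k => ρ < (2 : ℝ) ^ n / 3 ^ k ∧ (2 : ℝ) ^ n / 3 ^ k ≤ 2 * ρ), D k n k (fun _ => True) N := by
  classical
  intro t ht ρ hρ1 hρ2 N
  refine le_trans (sub_le_sub_right (line_lower ht hρ1 hρ2 N) _) ?_
  unfold EE
  rw [← Finset.sum_sub_distrib]
  apply Finset.sum_le_sum
  intro n hn
  have h1 : ∑ k ∈ (Finset.range (n + 1)).filter (Ln ρ n), D (mm t) n k (fun _ => True) N ≤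
      ∑ k ∈ (KS n (mm t)).filter (Ln ρ n), D (mm t) n k (fun _ => True) N +
        ∑ k ∈ Finset.range (n + 1) \ KS n (mm t), D (mm t) n k (fun _ => True) N := by
    rw [← Finset.sum_union]
    · apply Finset.sum_le_sum_of_subset_of_nonneg
      · intro k hk
        rw [Finset.mem_filter] at hk
        rw [Finset.mem_union, Finset.mem_filter, Finset.mem_sdiff]
        by_cases h : k ∈ KS n (mm t)
        · left; exact ⟨h, hk.2⟩
        · right; exact ⟨hk.1, h⟩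
      · intro k _ _
        exact D_nonneg _ _ _ _ _
    · rw [Finset.disjoint_left]
      intro k hk hk2
      rw [Finset.mem_filter] at hk
      exact (Finset.mem_sdiff.mp hk2).2 hk.1
  have h2 : ∑ k ∈ (KS n (mm t)).filter (Ln ρ n), D (mm t) n k (fun _ => True) N ≤
      ∑ k ∈ (KS n (mm t)).filter (Ln ρ n), D k n k (fun _ => True) N +
      ∑ k ∈ KS n (mm t), |D k n k (fun _ => True) N - D (mm t) n k (fun _ => True) N| := by
    have h3 : ∑ k ∈ (KS n (mm t)).filter (Ln ρ n), |D k n k (fun _ => True) N - D (mm t) n k (fun _ => True) N| ≤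
        ∑ k ∈ KS n (mm t), |D k n k (fun _ => True) N - D (mm t) n k (fun _ => True) N| :=
      Finset.sum_le_sum_of_subset_of_nonneg (Finset.filter_subset _ _) (fun k _ _ => abs_nonneg _)
    refine le_trans ?_ (add_le_add le_rfl h3)
    rw [← Finset.sum_add_distrib]
    apply Finset.sum_le_sum
    intro k _
    have := neg_abs_le (D k n k (fun _ => True) N - D (mm t) n k (fun _ => True) N)
    linarith
  have h3 : ∑ k ∈ (KS n (mm t)).filter (Ln ρ n), D k n k (fun _ => True) N ≤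
      ∑ k ∈ (KS n 0).filter (fun k => ρ < (2 : ℝ) ^ n / 3 ^ k ∧ (2 : ℝ) ^ n / 3 ^ k ≤ 2 * ρ), D k n k (fun _ => True) N := by
    apply Finset.sum_le_sum_of_subset_of_nonneg
    · intro k hk
      rw [Finset.mem_filter, mem_KS] at hk ⊢
      exact ⟨⟨hk.1.1, Nat.zero_le _, hk.1.2.2⟩, hk.2⟩
    · intro k _ _
      exact D_nonneg _ _ _ _ _
  linarith

end Pool.Agent.Helper75.PD
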