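import Pool.Agent.Helper1.PD.Defs

/-! Local counting at intermediate depths: the error function. -/

namespace Pool.Agent.Helper75.PD

open Pool.Agent.Helper3.ND Pool.Agent.Helper3.TD Pool.Agent.Helper1.PD

/-- the level of the limiting density -/
def mm (t : ℕ) : ℕ := t / 2000

/-- the error function -/
noncomputable def EE (t : ℕ) (N : ℤ) : ℝ :=
  ∑ n ∈ Finset.Icc (t / 200) (t / 5),
    (∑ k ∈ KS n (mm t), |D k n k (fun _ => True) N - D (mm t) n k (fun _ => True) N| +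
      ∑ k ∈ Finset.range (n + 1) \ KS n (mm t), D (mm t) n k (fun _ => True) N)

theorem EE_nonneg (t : ℕ) (N : ℤ) : 0 ≤ EE t N := by
  unfold EE
  apply Finset.sum_nonneg
  intro n _
  apply add_nonneg
  · exact Finset.sum_nonneg (fun k _ => abs_nonneg _)
  · exact Finset.sum_nonneg (fun k _ => D_nonneg _ _ _ _ _)

theorem KS_le {n m k : ℕ} (hn : 10 ^ 3 ≤ n) (h : k ∈ KS n m) : 5 * k ≤ 3 * n := by
  obtain ⟨_, _, h3⟩ := mem_KS.mp h
  unfold TypK at h3
  have h4 := rpow_small (x := (n : ℝ)) (by exact_mod_cast hn)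
  rw [abs_le] at h3
  have h5 : (5 : ℝ) * k ≤ 3 * n := by linarith [h3.2]
  exact_mod_cast h5

/-- periodicity of the summands -/
theorem per1 {t n k : ℕ} (ht : 200000 ≤ t) (hn : n ∈ Finset.Icc (t / 200) (t / 5)) (hk : k ∈ KS n (mm t)) :
    k ≤ t / 8 ∧ Per k (fun N => |D k n k (fun _ => True) N - D (mm t) n k (fun _ => True) N|) := by
  rw [Finset.mem_Icc] at hn
  have h1 := KS_le (show 10 ^ 3 ≤ n by omega) hk
  obtain ⟨_, h2, _⟩ := mem_KS.mp hk
  refine ⟨by omega, ?_⟩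
  intro x
  simp only
  rw [D_per k n k _ x, (D_per (mm t) n k (fun _ => True)).le h2 x]

theorem EE_per : ∀ t, 200000 ≤ t → Per (t / 8) (EE t) := by
  intro t ht x
  unfold EE
  apply Finset.sum_congr rfl
  intro n hn
  congr 1
  · apply Finset.sum_congr rfl
    intro k hk
    obtain ⟨h1, h2⟩ := per1 ht hn hk
    exact h2.le h1 x
  · apply Finset.sum_congr rfl
    intro k _
    exact (D_per (mm t) n k (fun _ => True)).le (show mm t ≤ t / 8 by unfold mm; omega) x

theorem Av_EE_eq {t : ℕ} (ht : 200000 ≤ t) : Av (t / 8) (EE t) = ∑ n ∈ Finset.Icc (t / 200) (t / 5),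
    (∑ k ∈ KS n (mm t), Av k (fun N => |D k n k (fun _ => True) N - D (mm t) n k (fun _ => True) N|) +
      ∑ k ∈ Finset.range (n + 1) \ KS n (mm t), mass n k (fun _ => True)) := by
  have h0 : EE t = fun N => ∑ n ∈ Finset.Icc (t / 200) (t / 5),
    (∑ k ∈ KS n (mm t), |D k n k (fun _ => True) N - D (mm t) n k (fun _ => True) N| +
      ∑ k ∈ Finset.range (n + 1) \ KS n (mm t), D (mm t) n k (fun _ => True) N) := by
    funext N; rfl
  rw [h0, Av_sum (t / 8) (Finset.Icc (t / 200) (t / 5)) (fun n N =>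
    (∑ k ∈ KS n (mm t), |D k n k (fun _ => True) N - D (mm t) n k (fun _ => True) N| +
      ∑ k ∈ Finset.range (n + 1) \ KS n (mm t), D (mm t) n k (fun _ => True) N))]
  apply Finset.sum_congr rfl
  intro n hn
  rw [Av_add, Av_sum (t / 8) (KS n (mm t)) (fun k N => |D k n k (fun _ => True) N - D (mm t) n k (fun _ => True) N|),
    Av_sum (t / 8) (Finset.range (n + 1) \ KS n (mm t)) (fun k N => D (mm t) n k (fun _ => True) N)]
  congr 1
  · apply Finset.sum_congr rfl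
    intro k hk
    obtain ⟨h1, h2⟩ := per1 ht hn hk
    exact Av_le h2 h1
  · apply Finset.sum_congr rfl
    intro k _
    rw [← Av_D (mm t) n k]
    exact Av_le (D_per (mm t) n k (fun _ => True)) (show mm t ≤ t / 8 by unfold mm; omega)

theorem EE_av (q : ℕ) : ∃ C : ℝ, 0 < C ∧ ∃ T0 : ℕ, ∀ t, T0 ≤ t → Av (t / 8) (EE t) ≤ C / (t : ℝ) ^ q := by
  obtain ⟨C, hC, n0, hn0, H⟩ := mixingK (q + 1)
  obtain ⟨F, hF⟩ : ∃ F : ℝ, F = (Nat.factorial (10 * (q + 1)) : ℝ) := ⟨_, rfl⟩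
  have hF0 : 0 < F := by rw [hF]; positivity
  refine ⟨C * 4000 ^ (q + 2) + 2 * F * 400 ^ (q + 1), by positivity, 2000 * n0 + 200000, ?_⟩
  intro t ht
  have ht0 : (0 : ℝ) < t := by
    have : 0 < t := by omega
    exact_mod_cast this
  have htr : (200000 : ℝ) ≤ t := by
    have : 200000 ≤ t := by omega
    exact_mod_cast this
  rw [Av_EE_eq (by omega)]
  have hm : (t : ℝ) / 4000 ≤ (mm t : ℕ) := by
    have : t ≤ 4000 * mm t := by unfold mm; omega
    have : (t : ℝ) ≤ 4000 * (mm t : ℕ) := by exact_mod_cast this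
    linarith
  have hm1 : n0 ≤ mm t := by unfold mm; omega
  have key : ∀ n ∈ Finset.Icc (t / 200) (t / 5),
      (∑ k ∈ KS n (mm t), Av k (fun N => |D k n k (fun _ => True) N - D (mm t) n k (fun _ => True) N|) +
      ∑ k ∈ Finset.range (n + 1) \ KS n (mm t), mass n k (fun _ => True)) ≤
      (C * 4000 ^ (q + 2) + 2 * F * 400 ^ (q + 1)) / (t : ℝ) ^ (q + 1) := by
    intro n hn
    rw [Finset.mem_Icc] at hn
    have hn1 : (t : ℝ) / 400 ≤ n := by
      have : t ≤ 400 * n := by omega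
      have : (t : ℝ) ≤ 400 * n := by exact_mod_cast this
      linarith
    have hn2 : (n : ℝ) ≤ t := by
      have : n ≤ t := by omega
      exact_mod_cast this
    have hn3 : 1000 ≤ n := by omega
    have hn4 : (1 : ℝ) ≤ n := by
      have : 1 ≤ n := by omega
      exact_mod_cast this
    have h1 := H n (mm t) hm1 (by unfold mm; omega)
    have h2 : C * (n : ℝ) ^ (1 / 20 : ℝ) / (mm t : ℝ) ^ (q + 1 + 1) ≤ C * 4000 ^ (q + 2) / (t : ℝ) ^ (q + 1) := by
      have e1 : (n : ℝ) ^ (1 / 20 : ℝ) ≤ t := by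
        calc (n : ℝ) ^ (1 / 20 : ℝ) ≤ (n : ℝ) ^ (1 : ℝ) := Real.rpow_le_rpow_of_exponent_le hn4 (by norm_num)
          _ = n := Real.rpow_one _
          _ ≤ t := hn2
      calc C * (n : ℝ) ^ (1 / 20 : ℝ) / (mm t : ℝ) ^ (q + 1 + 1) ≤ C * t / ((t : ℝ) / 4000) ^ (q + 1 + 1) := by gcongr
        _ = _ := by
          rw [div_pow, pow_succ (t : ℝ) (q + 1)]
          field_simp
    have h3 : ∑ k ∈ Finset.range (n + 1) \ KS n (mm t), mass n k (fun _ => True) ≤ 2 * F * 400 ^ (q + 1) / (t : ℝ) ^ (q + 1) := by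
      refine le_trans (mass_set n _ _) ?_
      refine le_trans (card_out (m := mm t) (show 10 ^ 3 ≤ n by omega) (by unfold mm; omega) _ (fun k hk => (Finset.mem_sdiff.mp hk).2)) ?_
      have e1 := exp_tailK (q + 1) hn4
      rw [← hF] at e1
      calc 2 * Real.exp (-((n : ℝ) ^ (1 / 10 : ℝ))) ≤ 2 * (F / (n : ℝ) ^ (q + 1)) := by gcongr
        _ ≤ 2 * (F / ((t : ℝ) / 400) ^ (q + 1)) := by gcongr
        _ = _ := by
          rw [div_pow]
          field_simp
    calc _ ≤ C * 4000 ^ (q + 2) / (t : ℝ) ^ (q + 1) + 2 * F * 400 ^ (q + 1) / (t : ℝ) ^ (q + 1) :=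
          add_le_add (le_trans h1 h2) h3
      _ = _ := by ring
  refine le_trans (Finset.sum_le_sum key) ?_
  rw [Finset.sum_const, nsmul_eq_mul, Nat.card_Icc]
  have h4 : ((t / 5 + 1 - t / 200 : ℕ) : ℝ) ≤ t := by
    have : t / 5 + 1 - t / 200 ≤ t := by omega
    exact_mod_cast this
  calc ((t / 5 + 1 - t / 200 : ℕ) : ℝ) * ((C * 4000 ^ (q + 2) + 2 * F * 400 ^ (q + 1)) / (t : ℝ) ^ (q + 1))
      ≤ t * ((C * 4000 ^ (q + 2) + 2 * F * 400 ^ (q + 1)) / (t : ℝ) ^ (q + 1)) := by gcongr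
    _ = _ := by
      field_simp
      ring

end Pool.Agent.Helper75.PD
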